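import Mathlib

/-!
The dual of every separable Banach space contains weak star closed Chebyshev subspaces of every
finite codimension not exceeding the dimension of the space. The proof combines a Baire category
argument with the fact that the directions of the segments in the boundary of a convex body form a
null set. For incomplete spaces the statement fails.
-/

namespace Pool.Agent.Results.MP_beddab_an.WeakStarChebyshev

open Set Filter Topology MeasureTheory Pointwise TopologicalSpace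

section Segments

variable {G : Type*} [NormedAddCommGroup G] [NormedSpace ℝ G]

/-- A shrunken Macbeath region of `K` at `x`. -/
def Nreg (K : Set G) (x : G) : Set G :=
  {z | (2 : ℝ) • z - x ∈ K ∧ (3 : ℝ) • x - (2 : ℝ) • z ∈ K}

/-- An enlarged Macbeath region, moved to the origin. -/
def Creg (K : Set G) (x : G) : Set G :=
  {d | x + (10 : ℝ)⁻¹ • d ∈ K ∧ x - (10 : ℝ)⁻¹ • d ∈ K}

/-- Directions (with lengths) of segments in the boundary. -/
def Seg (K : Set G) : Set G := {d | ∃ p ∈ frontier K, p + d ∈ K ∧ p - d ∈ K}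

theorem mem_Creg_of_inter {K : Set G} (hconv : Convex ℝ K) (h0 : (0 : G) ∈ K) {η : ℝ} (hη0 : 0 < η)
    (hη : η ≤ 1 / 2) {p d y : G} (hy : y ∈ K) (hd1 : p + d ∈ K) (hd2 : p - d ∈ K)
    (hint : (Nreg K ((1 - η) • p) ∩ Nreg K y).Nonempty) : d ∈ Creg K y := by
  obtain ⟨z, ⟨hz1, hz2⟩, ⟨hz3, hz4⟩⟩ := hint
  set x := (1 - η) • p with hx
  set m := (1 - η) • d with hm
  have hη1 : 0 < 1 - η := by linarith
  have hxm1 : x + m ∈ K := by
    have : x + m = (1 - η) • (p + d) + η • (0 : G) := by rw [hx, hm]; module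
    rw [this]
    exact hconv hd1 h0 hη1.le hη0.le (by ring)
  have hxm2 : x - m ∈ K := by
    have : x - m = (1 - η) • (p - d) + η • (0 : G) := by rw [hx, hm]; module
    rw [this]
    exact hconv hd2 h0 hη1.le hη0.le (by ring)
  -- the four points
  have hA1 : y + (5 : ℝ)⁻¹ • (x + m - y) ∈ K := by
    have : y + (5 : ℝ)⁻¹ • (x + m - y) = (4 / 5 : ℝ) • y + (1 / 5 : ℝ) • (x + m) := by module
    rw [this]
    exact hconv hy hxm1 (by norm_num) (by norm_num) (by norm_num)
  have hA2 : y + (5 : ℝ)⁻¹ • (x - m - y) ∈ K := by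
    have : y + (5 : ℝ)⁻¹ • (x - m - y) = (4 / 5 : ℝ) • y + (1 / 5 : ℝ) • (x - m) := by module
    rw [this]
    exact hconv hy hxm2 (by norm_num) (by norm_num) (by norm_num)
  have hmid : (1 / 2 : ℝ) • ((3 : ℝ) • y - (2 : ℝ) • z) + (1 / 2 : ℝ) • ((2 : ℝ) • z - x) ∈ K :=
    hconv hz4 hz1 (by norm_num) (by norm_num) (by norm_num)
  have hB1 : y - (5 : ℝ)⁻¹ • (x + m - y) ∈ K := by
    have : y - (5 : ℝ)⁻¹ • (x + m - y) = (4 / 5 : ℝ) • ((1 / 2 : ℝ) • ((3 : ℝ) • y - (2 : ℝ) • z) +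
      (1 / 2 : ℝ) • ((2 : ℝ) • z - x)) + (1 / 5 : ℝ) • (x - m) := by module
    rw [this]
    exact hconv hmid hxm2 (by norm_num) (by norm_num) (by norm_num)
  have hB2 : y - (5 : ℝ)⁻¹ • (x - m - y) ∈ K := by
    have : y - (5 : ℝ)⁻¹ • (x - m - y) = (4 / 5 : ℝ) • ((1 / 2 : ℝ) • ((3 : ℝ) • y - (2 : ℝ) • z) +
      (1 / 2 : ℝ) • ((2 : ℝ) • z - x)) + (1 / 5 : ℝ) • (x + m) := by module
    rw [this]
    exact hconv hmid hxm1 (by norm_num) (by norm_num) (by norm_num)
  -- combine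
  have hC1 : y + (5 : ℝ)⁻¹ • m ∈ K := by
    have : y + (5 : ℝ)⁻¹ • m = (1 / 2 : ℝ) • (y + (5 : ℝ)⁻¹ • (x + m - y)) +
      (1 / 2 : ℝ) • (y - (5 : ℝ)⁻¹ • (x - m - y)) := by module
    rw [this]
    exact hconv hA1 hB2 (by norm_num) (by norm_num) (by norm_num)
  have hC2 : y - (5 : ℝ)⁻¹ • m ∈ K := by
    have : y - (5 : ℝ)⁻¹ • m = (1 / 2 : ℝ) • (y + (5 : ℝ)⁻¹ • (x - m - y)) +
      (1 / 2 : ℝ) • (y - (5 : ℝ)⁻¹ • (x + m - y)) := by module
    rw [this]
    exact hconv hA2 hB1 (by norm_num) (by norm_num) (by norm_num)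
  -- scale
  set c : ℝ := 1 / (2 * (1 - η)) with hc
  have hc0 : 0 ≤ c := by positivity
  have hc1 : c ≤ 1 := by
    rw [hc, div_le_one (by positivity)]; linarith
  have hcm : (10 : ℝ)⁻¹ • d = c • ((5 : ℝ)⁻¹ • m) := by
    rw [hm, smul_smul, smul_smul]
    congr 1
    rw [hc]
    field_simp
    norm_num
  constructor
  · have : y + (10 : ℝ)⁻¹ • d = c • (y + (5 : ℝ)⁻¹ • m) + (1 - c) • y := by rw [hcm]; module
    rw [this]
    exact hconv hC1 hy hc0 (by linarith) (by ring)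
  · have : y - (10 : ℝ)⁻¹ • d = c • (y - (5 : ℝ)⁻¹ • m) + (1 - c) • y := by rw [hcm]; module
    rw [this]
    exact hconv hC2 hy hc0 (by linarith) (by ring)

theorem smul_mem_interior {K : Set G} (hconv : Convex ℝ K) (h0 : (0 : G) ∈ interior K) {t : ℝ}
    (ht0 : 0 ≤ t) (ht1 : t < 1) {p : G} (hp : p ∈ K) : t • p ∈ interior K := by
  have h := hconv.combo_interior_self_mem_interior h0 hp (a := 1 - t) (b := t) (by linarith) ht0
    (by ring)
  simpa using h

theorem Nreg_subset {K : Set G} (hconv : Convex ℝ K) (hcl : IsClosed K) (h0 : (0 : G) ∈ interior K)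
    {η : ℝ} (hη0 : 0 < η) (hη : η < 1 / 2) {p : G} (hp : p ∈ frontier K) :
    Nreg K ((1 - η) • p) ⊆ K \ ((1 - 2 * η) • K) := by
  rintro z ⟨hz1, hz2⟩
  have h0K : (0 : G) ∈ K := interior_subset h0
  have hpK : p ∈ K := hcl.frontier_subset hp
  set x := (1 - η) • p with hx
  have hxK : x ∈ K := interior_subset (smul_mem_interior hconv h0 (by linarith) (by linarith) hpK)
  constructor
  · have : z = (1 / 2 : ℝ) • ((2 : ℝ) • z - x) + (1 / 2 : ℝ) • x := by module
    rw [this]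
    exact hconv hz1 hxK (by norm_num) (by norm_num) (by norm_num)
  · rintro ⟨k, hk, hkz⟩
    simp only at hkz
    set q := (3 : ℝ) • x - (2 : ℝ) • z with hq
    -- p is an interior point
    have hden : 0 < 3 - 4 * η := by linarith
    set w := (2 * (1 - 2 * η) / (3 - 4 * η)) • k + (1 / (3 - 4 * η)) • q with hw
    have hwK : w ∈ K := by
      apply hconv hk hz2
      · apply div_nonneg <;> linarith
      · positivity
      · rw [← add_div, div_eq_one_iff_eq hden.ne']; ring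
    have hpw : p = ((3 - 4 * η) / (3 - 3 * η)) • w := by
      have h1 : (3 - 3 * η) • p = (3 : ℝ) • x := by rw [hx]; module
      have h2 : (3 : ℝ) • x = (2 : ℝ) • z + q := by rw [hq]; module
      have h3 : (3 - 4 * η) • w = (2 * (1 - 2 * η)) • k + q := by
        rw [hw, smul_add, smul_smul, smul_smul, mul_div_cancel₀ _ hden.ne',
          mul_one_div_cancel hden.ne', one_smul]
      have h4 : (3 - 3 * η) • p = (3 - 4 * η) • w := by
        rw [h1, h2, h3, ← hkz, smul_smul]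
      have h5 : (3 - 3 * η) ≠ 0 := by
        have : 0 < 3 - 3 * η := by linarith
        exact this.ne'
      rw [div_eq_inv_mul, mul_smul, ← h4, smul_smul, inv_mul_cancel₀ h5, one_smul]
    have hlt : (3 - 4 * η) / (3 - 3 * η) < 1 := by
      rw [div_lt_one (by linarith)]; linarith
    have hint : p ∈ interior K := by
      rw [hpw]
      apply smul_mem_interior hconv h0 _ hlt hwK
      apply div_nonneg <;> linarith
    exact hp.2 hint

variable [FiniteDimensional ℝ G] [MeasurableSpace G] [BorelSpace G] (μ : Measure G)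
  [μ.IsAddHaarMeasure]

theorem measure_Creg (K : Set G) (x : G) :
    μ (Creg K x) = ENNReal.ofReal (20 ^ Module.finrank ℝ G) * μ (Nreg K x) := by
  set S : Set G := {w | x + (2 : ℝ) • w ∈ K ∧ x - (2 : ℝ) • w ∈ K} with hS
  have h1 : Nreg K x = (fun z => -x + z) ⁻¹' S := by
    ext z
    simp only [Nreg, hS, mem_preimage, Set.mem_ofPred_eq]
    have e1 : x + (2 : ℝ) • (-x + z) = (2 : ℝ) • z - x := by module
    have e2 : x - (2 : ℝ) • (-x + z) = (3 : ℝ) • x - (2 : ℝ) • z := by module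
    rw [e1, e2]
  have h2 : Creg K x = (20 : ℝ) • S := by
    ext d
    rw [Set.mem_smul_set_iff_inv_smul_mem₀ (by norm_num)]
    simp only [Creg, hS, Set.mem_ofPred_eq]
    have e1 : (2 : ℝ) • ((20 : ℝ)⁻¹ • d) = (10 : ℝ)⁻¹ • d := by
      rw [smul_smul]; norm_num
    rw [e1]
  rw [h1, h2, measure_preimage_add, Measure.addHaar_smul]
  congr 2
  rw [abs_of_nonneg (by positivity)]

omit [FiniteDimensional ℝ G] [MeasurableSpace G] [BorelSpace G] in
theorem isClosed_Nreg {K : Set G} (hcl : IsClosed K) (x : G) : IsClosed (Nreg K x) := by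
  apply IsClosed.inter
  · exact hcl.preimage (by fun_prop)
  · exact hcl.preimage (by fun_prop)

theorem measure_Seg_le {K : Set G} (hK : IsCompact K) (hconv : Convex ℝ K)
    (h0 : (0 : G) ∈ interior K) {η : ℝ} (hη0 : 0 < η) (hη : η < 1 / 2) :
    μ (Seg K) ≤ ENNReal.ofReal (20 ^ Module.finrank ℝ G) *
      (ENNReal.ofReal (1 - (1 - 2 * η) ^ Module.finrank ℝ G) * μ K) := by
  have h0K : (0 : G) ∈ K := interior_subset h0
  set X : Set G := (fun p => (1 - η) • p) '' frontier K with hX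
  have hXint : ∀ x ∈ X, x ∈ interior K := by
    rintro x ⟨p, hp, rfl⟩
    exact smul_mem_interior hconv h0 (by linarith) (by linarith) (hK.isClosed.frontier_subset hp)
  have hself : ∀ x ∈ X, x ∈ interior (Nreg K x) := by
    intro x hx
    have hopen : IsOpen {z : G | (2 : ℝ) • z - x ∈ interior K ∧
        (3 : ℝ) • x - (2 : ℝ) • z ∈ interior K} := by
      apply IsOpen.inter
      · exact isOpen_interior.preimage (by fun_prop)
      · exact isOpen_interior.preimage (by fun_prop)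
    have hsub : {z : G | (2 : ℝ) • z - x ∈ interior K ∧
        (3 : ℝ) • x - (2 : ℝ) • z ∈ interior K} ⊆ Nreg K x :=
      fun z hz => ⟨interior_subset hz.1, interior_subset hz.2⟩
    apply interior_maximal hsub hopen
    have e1 : (2 : ℝ) • x - x = x := by module
    have e2 : (3 : ℝ) • x - (2 : ℝ) • x = x := by module
    refine ⟨?_, ?_⟩
    · rw [e1]; exact hXint x hx
    · rw [e2]; exact hXint x hx
  obtain ⟨T, hT⟩ := zorn_subset {T : Set G | T ⊆ X ∧ T.PairwiseDisjoint (Nreg K)} (by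
    intro c hc hchain
    refine ⟨⋃₀ c, ⟨sUnion_subset fun t ht => (hc ht).1, ?_⟩, fun s hs => subset_sUnion_of_mem hs⟩
    exact (Set.pairwiseDisjoint_sUnion hchain.directedOn).mpr fun s hs => (hc hs).2)
  have hTX : T ⊆ X := hT.prop.1
  have hTd : T.PairwiseDisjoint (Nreg K) := hT.prop.2
  have hTc : T.Countable := by
    exact hTd.countable_of_nonempty_interior fun x hx => ⟨x, hself x (hTX hx)⟩
  have hcover : Seg K ⊆ ⋃ y ∈ T, Creg K y := by
    rintro d ⟨p, hp, hd1, hd2⟩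
    have hex : ∃ y ∈ T, (Nreg K ((1 - η) • p) ∩ Nreg K y).Nonempty := by
      by_contra hcon
      push Not at hcon
      have hxX : (1 - η) • p ∈ X := ⟨p, hp, rfl⟩
      have hxT : (1 - η) • p ∉ T := by
        intro hx
        have h1 := hcon _ hx
        rw [inter_self] at h1
        have h2 := interior_subset (hself _ hxX)
        rw [h1] at h2
        exact h2
      have hins : insert ((1 - η) • p) T ∈ {T : Set G | T ⊆ X ∧ T.PairwiseDisjoint (Nreg K)} := by
        refine ⟨insert_subset hxX hTX, ?_⟩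
        apply hTd.insert
        intro y hy _
        rw [Set.disjoint_iff_inter_eq_empty]
        exact hcon y hy
      have h3 := hT.le_of_ge hins (subset_insert _ _)
      exact hxT (h3 (mem_insert _ _))
    obtain ⟨y, hyT, hy⟩ := hex
    rw [mem_iUnion₂]
    exact ⟨y, hyT, mem_Creg_of_inter hconv h0K hη0 hη.le (interior_subset (hXint y (hTX hyT)))
      hd1 hd2 hy⟩
  have hsub : (⋃ y ∈ T, Nreg K y) ⊆ K \ ((1 - 2 * η) • K) := by
    apply iUnion₂_subset
    intro y hy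
    obtain ⟨p, hp, rfl⟩ := hTX hy
    exact Nreg_subset hconv hK.isClosed h0 hη0 hη hp
  calc μ (Seg K) ≤ μ (⋃ y ∈ T, Creg K y) := measure_mono hcover
    _ ≤ ∑' y : T, μ (Creg K (y : G)) := measure_biUnion_le μ hTc _
    _ = ENNReal.ofReal (20 ^ Module.finrank ℝ G) * ∑' y : T, μ (Nreg K (y : G)) := by
        rw [← ENNReal.tsum_mul_left]
        exact tsum_congr fun y => measure_Creg μ K y
    _ = ENNReal.ofReal (20 ^ Module.finrank ℝ G) * μ (⋃ y ∈ T, Nreg K y) := by
        rw [measure_biUnion hTc hTd fun y _ => (isClosed_Nreg hK.isClosed y).measurableSet]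
    _ ≤ ENNReal.ofReal (20 ^ Module.finrank ℝ G) * μ (K \ ((1 - 2 * η) • K)) := by
        gcongr
    _ = _ := by
        congr 1
        have hsubK : (1 - 2 * η) • K ⊆ K := by
          rintro _ ⟨k, hk, rfl⟩
          exact interior_subset (smul_mem_interior hconv h0 (by linarith) (by linarith) hk)
        have hmeas : MeasurableSet ((1 - 2 * η) • K) := (hK.smul (1 - 2 * η)).measurableSet
        have hpow : (0 : ℝ) ≤ (1 - 2 * η) ^ Module.finrank ℝ G := by
          apply pow_nonneg; linarith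
        rw [measure_sdiff hsubK hmeas.nullMeasurableSet
          ((measure_mono hsubK).trans_lt hK.measure_lt_top).ne, Measure.addHaar_smul,
          abs_of_nonneg hpow, ENNReal.ofReal_sub _ hpow, ENNReal.ofReal_one,
          ENNReal.sub_mul (fun _ _ => hK.measure_lt_top.ne), one_mul]

/-- The directions of the segments in the boundary of a convex body form a null set. -/
theorem measure_Seg {K : Set G} (hK : IsCompact K) (hconv : Convex ℝ K)
    (h0 : (0 : G) ∈ interior K) : μ (Seg K) = 0 := by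
  have hle : ∀ k : ℕ, μ (Seg K) ≤ ENNReal.ofReal (20 ^ Module.finrank ℝ G) *
      (ENNReal.ofReal (1 - (1 - 2 * (1 / ((k : ℝ) + 3))) ^ Module.finrank ℝ G) * μ K) := by
    intro k
    have hk : (0 : ℝ) ≤ k := Nat.cast_nonneg k
    apply measure_Seg_le μ hK hconv h0 (by positivity)
    rw [div_lt_div_iff₀ (by positivity) (by norm_num)]
    linarith
  have htend : Tendsto (fun k : ℕ => ENNReal.ofReal (20 ^ Module.finrank ℝ G) *
      (ENNReal.ofReal (1 - (1 - 2 * (1 / ((k : ℝ) + 3))) ^ Module.finrank ℝ G) * μ K))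
      atTop (𝓝 (ENNReal.ofReal (20 ^ Module.finrank ℝ G) * (ENNReal.ofReal 0 * μ K))) := by
    apply ENNReal.Tendsto.const_mul _ (Or.inr ENNReal.ofReal_ne_top)
    apply ENNReal.Tendsto.mul_const _ (Or.inr hK.measure_lt_top.ne)
    apply ENNReal.tendsto_ofReal
    have h1 : Tendsto (fun k : ℕ => 1 / ((k : ℝ) + 3)) atTop (𝓝 0) := by
      have h2 : Tendsto (fun k : ℕ => (k : ℝ) + 3) atTop atTop :=
        tendsto_atTop_add_const_right _ _ tendsto_natCast_atTop_atTop
      simpa [Function.comp_def] using tendsto_inv_atTop_zero.comp h2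
    have h2 : Tendsto (fun k : ℕ => 1 - (1 - 2 * (1 / ((k : ℝ) + 3))) ^ Module.finrank ℝ G) atTop
        (𝓝 (1 - (1 - 2 * 0) ^ Module.finrank ℝ G)) :=
      ((((h1.const_mul 2).const_sub 1).pow _).const_sub 1)
    simpa using h2
  have := ge_of_tendsto' htend hle
  simpa using this

end Segments


section Fubini

variable {𝕜 : Type*} [RCLike 𝕜] {n : ℕ}

/-- A null set which is stable under small scalars contains no line element over almost every
direction `(1, -s)`. -/
theorem exists_direction [MeasurableSpace 𝕜] [BorelSpace 𝕜] (μ : Measure 𝕜) [μ.IsAddHaarMeasure]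
    (ν : Measure (Fin n → 𝕜)) [ν.IsAddHaarMeasure] {A : Set (𝕜 × (Fin n → 𝕜))}
    (hA : (μ.prod ν) A = 0) (hcirc : ∀ c : 𝕜, ‖c‖ ≤ 1 → ∀ d ∈ A, c • d ∈ A)
    {U : Set (Fin n → 𝕜)} (hU : IsOpen U) (hne : U.Nonempty) :
    ∃ s ∈ U, ∀ z : 𝕜, z ≠ 0 → (z, -(z • s)) ∉ A := by
  by_contra hcon
  push Not at hcon
  have hae := Measure.measure_ae_null_of_prod_null hA
  have hdense : Dense {z : 𝕜 | ν (Prod.mk z ⁻¹' A) = 0} := Measure.dense_of_ae hae
  -- a sequence of good heights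
  have hseq : ∀ k : ℕ, ∃ z : 𝕜, z ≠ 0 ∧ ‖z‖ < 1 / ((k : ℝ) + 1) ∧ ν (Prod.mk z ⁻¹' A) = 0 := by
    intro k
    have hopen : IsOpen (Metric.ball (0 : 𝕜) (1 / ((k : ℝ) + 1)) ∩ {0}ᶜ) :=
      Metric.isOpen_ball.inter isOpen_compl_singleton
    have hnon : (Metric.ball (0 : 𝕜) (1 / ((k : ℝ) + 1)) ∩ {0}ᶜ).Nonempty := by
      refine ⟨((1 / (2 * ((k : ℝ) + 1)) : ℝ) : 𝕜), ?_, ?_⟩
      · rw [mem_ball_zero_iff, RCLike.norm_ofReal, abs_of_pos (by positivity)]
        apply one_div_lt_one_div_of_lt (by positivity)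
        have : (0 : ℝ) ≤ k := Nat.cast_nonneg k
        linarith
      · simp only [mem_compl_iff, mem_singleton_iff]
        have : (1 / (2 * ((k : ℝ) + 1)) : ℝ) ≠ 0 := by positivity
        exact_mod_cast this
    obtain ⟨z, hz1, hz2⟩ := hdense.inter_open_nonempty _ hopen hnon
    exact ⟨z, hz1.2, by simpa using hz1.1, hz2⟩
  choose zs hz0 hzs hznull using hseq
  have hcover : U ⊆ ⋃ k : ℕ, {s : Fin n → 𝕜 | (zs k, -(zs k • s)) ∈ A} := by
    intro s hs
    obtain ⟨z, hz, hzA⟩ := hcon s hs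
    obtain ⟨k, hk⟩ := exists_nat_one_div_lt (norm_pos_iff.mpr hz)
    rw [mem_iUnion]
    refine ⟨k, ?_⟩
    have h1 := hcirc (zs k / z) (by
      rw [norm_div, div_le_one (norm_pos_iff.mpr hz)]
      exact ((hzs k).trans hk).le) _ hzA
    have h2 : (zs k / z) • ((z, -(z • s)) : 𝕜 × (Fin n → 𝕜)) = (zs k, -(zs k • s)) := by
      rw [Prod.smul_mk, smul_neg, smul_smul, smul_eq_mul, div_mul_cancel₀ _ hz]
    rw [h2] at h1
    exact h1
  have hnull : ∀ k : ℕ, ν {s : Fin n → 𝕜 | (zs k, -(zs k • s)) ∈ A} = 0 := by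
    intro k
    let L : (Fin n → 𝕜) ≃L[ℝ] (Fin n → 𝕜) :=
      (ContinuousLinearEquiv.smulLeft (Units.mk0 (-(zs k)) (neg_ne_zero.mpr (hz0 k))) :
        (Fin n → 𝕜) ≃L[𝕜] (Fin n → 𝕜)).restrictScalars ℝ
    have hL : ∀ s, L s = -(zs k • s) := by
      intro s
      show (-(zs k)) • s = _
      rw [neg_smul]
    have h1 : {s : Fin n → 𝕜 | (zs k, -(zs k • s)) ∈ A} = L ⁻¹' (Prod.mk (zs k) ⁻¹' A) := by
      ext s
      simp only [Set.mem_ofPred_eq, mem_preimage, hL]
    rw [h1, Measure.addHaar_preimage_continuousLinearEquiv, hznull k, mul_zero]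
  have hzero : ν U = 0 := measure_mono_null hcover (measure_iUnion_null hnull)
  exact (hU.measure_pos ν hne).ne' hzero

end Fubini

section Main

variable {𝕜 : Type*} [RCLike 𝕜] {E : Type*} [NormedAddCommGroup E] [NormedSpace 𝕜 E] {n : ℕ}

/-- The dual unit ball with the weak star topology. -/
abbrev DBall (𝕜 : Type*) [RCLike 𝕜] (E : Type*) [NormedAddCommGroup E] [NormedSpace 𝕜 E] :=
  {g : WeakDual 𝕜 E // g ∈ WeakDual.toStrongDual ⁻¹' Metric.closedBall (0 : StrongDual 𝕜 E) 1}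

instance : CompactSpace (DBall 𝕜 E) :=
  isCompact_iff_compactSpace.mp (WeakDual.isCompact_closedBall (0 : StrongDual 𝕜 E) 1)

/-- The functional behind a point of the dual ball. -/
noncomputable def DBall.fn (g : DBall 𝕜 E) : StrongDual 𝕜 E := WeakDual.toStrongDual g.1

theorem DBall.norm_le (g : DBall 𝕜 E) : ‖g.fn‖ ≤ 1 := by
  have h : WeakDual.toStrongDual g.1 ∈ Metric.closedBall (0 : StrongDual 𝕜 E) 1 := g.2
  exact mem_closedBall_zero_iff.mp h

/-- The point of the dual ball given by a functional. -/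
noncomputable def DBall.mk' (g : StrongDual 𝕜 E) (hg : ‖g‖ ≤ 1) : DBall 𝕜 E :=
  ⟨StrongDual.toWeakDual g, mem_closedBall_zero_iff.mpr hg⟩

theorem DBall.fn_mk' (g : StrongDual 𝕜 E) (hg : ‖g‖ ≤ 1) : (DBall.mk' g hg).fn = g := rfl

theorem continuous_apply' (v : E) : Continuous fun g : DBall 𝕜 E => g.fn v :=
  (WeakDual.eval_continuous v).comp continuous_subtype_val

theorem continuous_ev : Continuous fun q : DBall 𝕜 E × E => q.1.fn q.2 := by
  rw [continuous_iff_continuousAt]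
  rintro ⟨g0, v0⟩
  have h1 : Tendsto (fun q : DBall 𝕜 E × E => q.1.fn v0) (𝓝 (g0, v0)) (𝓝 (g0.fn v0)) :=
    ((continuous_apply' v0).comp continuous_fst).continuousAt
  have h2 : Tendsto (fun q : DBall 𝕜 E × E => q.1.fn (q.2 - v0)) (𝓝 (g0, v0)) (𝓝 0) := by
    have h3 : Tendsto (fun q : DBall 𝕜 E × E => ‖q.2 - v0‖) (𝓝 (g0, v0)) (𝓝 0) := by
      have : Continuous fun q : DBall 𝕜 E × E => ‖q.2 - v0‖ := by fun_prop
      have h4 := this.continuousAt (x := (g0, v0))
      unfold ContinuousAt at h4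
      simpa using h4
    refine squeeze_zero_norm (fun q => ?_) h3
    calc ‖q.1.fn (q.2 - v0)‖ ≤ ‖q.1.fn‖ * ‖q.2 - v0‖ := q.1.fn.le_opNorm _
      _ ≤ 1 * ‖q.2 - v0‖ := mul_le_mul_of_nonneg_right q.1.norm_le (norm_nonneg _)
      _ = _ := one_mul _
  have h5 := h1.add h2
  simp only [← map_add, add_zero, add_sub_cancel] at h5
  exact h5

/-- The bad tuples. -/
def Bad (𝕜 : Type*) [RCLike 𝕜] {E : Type*} [NormedAddCommGroup E] [NormedSpace 𝕜 E] {n : ℕ}
    (x : E) (δ R : ℝ) : Set (Fin n → E) :=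
  {y | ∃ g₁ g₂ : StrongDual 𝕜 E, ‖g₁‖ ≤ 1 ∧ ‖g₂‖ ≤ 1 ∧ (∀ i, g₁ (y i) = g₂ (y i)) ∧
    δ ≤ ‖g₁ x - g₂ x‖ ∧ ∃ c : Fin n → 𝕜, ‖c‖ ≤ R ∧ ‖∑ i, c i • y i‖ = 1 ∧
      g₁ (∑ i, c i • y i) = 1}

theorem isClosed_Bad (x : E) (δ R : ℝ) : IsClosed (Bad 𝕜 (n := n) x δ R) := by
  have hC : CompactSpace (Metric.closedBall (0 : Fin n → 𝕜) R) :=
    isCompact_iff_compactSpace.mp (isCompact_closedBall _ _)
  let S : Set (((DBall 𝕜 E × DBall 𝕜 E) × Metric.closedBall (0 : Fin n → 𝕜) R) × (Fin n → E)) :=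
    {q | (∀ i, q.1.1.1.fn (q.2 i) = q.1.1.2.fn (q.2 i)) ∧ δ ≤ ‖q.1.1.1.fn x - q.1.1.2.fn x‖ ∧
      ‖∑ i, (q.1.2 : Fin n → 𝕜) i • q.2 i‖ = 1 ∧
      q.1.1.1.fn (∑ i, (q.1.2 : Fin n → 𝕜) i • q.2 i) = 1}
  have hsum : Continuous fun q : ((DBall 𝕜 E × DBall 𝕜 E) × Metric.closedBall (0 : Fin n → 𝕜) R) ×
      (Fin n → E) => ∑ i, (q.1.2 : Fin n → 𝕜) i • q.2 i := by
    apply continuous_finsetSum
    intro i _
    have h1 : Continuous fun q : ((DBall 𝕜 E × DBall 𝕜 E) × Metric.closedBall (0 : Fin n → 𝕜) R) ×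
      (Fin n → E) => (q.1.2 : Fin n → 𝕜) i :=
      (continuous_apply i).comp (continuous_subtype_val.comp (continuous_snd.comp continuous_fst))
    have h2 : Continuous fun q : ((DBall 𝕜 E × DBall 𝕜 E) × Metric.closedBall (0 : Fin n → 𝕜) R) ×
      (Fin n → E) => q.2 i := (continuous_apply i).comp continuous_snd
    exact h1.smul h2
  have hS : IsClosed S := by
    apply IsClosed.inter
    · have : {q : ((DBall 𝕜 E × DBall 𝕜 E) × Metric.closedBall (0 : Fin n → 𝕜) R) × (Fin n → E) |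
          ∀ i, q.1.1.1.fn (q.2 i) = q.1.1.2.fn (q.2 i)} =
          ⋂ i, {q | q.1.1.1.fn (q.2 i) = q.1.1.2.fn (q.2 i)} := by
        ext q; simp
      show IsClosed {q : ((DBall 𝕜 E × DBall 𝕜 E) × Metric.closedBall (0 : Fin n → 𝕜) R) ×
        (Fin n → E) | ∀ i, q.1.1.1.fn (q.2 i) = q.1.1.2.fn (q.2 i)}
      rw [this]
      apply isClosed_iInter
      intro i
      apply isClosed_eq
      · exact continuous_ev.comp ((continuous_fst.comp (continuous_fst.comp continuous_fst)).prodMk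
          ((continuous_apply i).comp continuous_snd))
      · exact continuous_ev.comp ((continuous_snd.comp (continuous_fst.comp continuous_fst)).prodMk
          ((continuous_apply i).comp continuous_snd))
    apply IsClosed.inter
    · have h1 : Continuous fun q : ((DBall 𝕜 E × DBall 𝕜 E) ×
          Metric.closedBall (0 : Fin n → 𝕜) R) × (Fin n → E) =>
          ‖q.1.1.1.fn x - q.1.1.2.fn x‖ :=
        (((continuous_apply' x).comp (continuous_fst.comp (continuous_fst.comp continuous_fst))).sub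
          ((continuous_apply' x).comp
            (continuous_snd.comp (continuous_fst.comp continuous_fst)))).norm
      exact isClosed_le continuous_const h1
    apply IsClosed.inter
    · exact isClosed_eq hsum.norm continuous_const
    · exact isClosed_eq (continuous_ev.comp
        ((continuous_fst.comp (continuous_fst.comp continuous_fst)).prodMk hsum)) continuous_const
  have himg : Bad 𝕜 (n := n) x δ R = Prod.snd '' S := by
    ext y
    constructor
    · rintro ⟨g₁, g₂, h1, h2, h3, h4, c, hc, h5, h6⟩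
      exact ⟨(((DBall.mk' g₁ h1, DBall.mk' g₂ h2), ⟨c, mem_closedBall_zero_iff.mpr hc⟩), y),
        ⟨h3, h4, h5, h6⟩, rfl⟩
    · rintro ⟨⟨⟨⟨g₁, g₂⟩, c⟩, y'⟩, ⟨h3, h4, h5, h6⟩, rfl⟩
      exact ⟨g₁.fn, g₂.fn, g₁.norm_le, g₂.norm_le, h3, h4, c, mem_closedBall_zero_iff.mp c.2, h5, h6⟩
  rw [himg]
  exact isClosedMap_snd_of_compactSpace _ hS

/-- The trace of the dual ball on `x, y`. -/
def Kset (𝕜 : Type*) [RCLike 𝕜] {E : Type*} [NormedAddCommGroup E] [NormedSpace 𝕜 E] {n : ℕ}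
    (x : E) (y : Fin n → E) : Set (𝕜 × (Fin n → 𝕜)) :=
  {a | ∃ g : StrongDual 𝕜 E, ‖g‖ ≤ 1 ∧ g x = a.1 ∧ ∀ i, g (y i) = a.2 i}

theorem isCompact_Kset (x : E) (y : Fin n → E) : IsCompact (Kset 𝕜 x y) := by
  have h1 : Continuous fun g : DBall 𝕜 E => ((g.fn x, fun i => g.fn (y i)) : 𝕜 × (Fin n → 𝕜)) :=
    (continuous_apply' x).prodMk (continuous_pi fun i => continuous_apply' (y i))
  have h2 : Kset 𝕜 x y = range fun g : DBall 𝕜 E =>
      ((g.fn x, fun i => g.fn (y i)) : 𝕜 × (Fin n → 𝕜)) := by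
    ext a
    constructor
    · rintro ⟨g, hg, hgx, hgy⟩
      exact ⟨DBall.mk' g hg, Prod.ext hgx (funext hgy)⟩
    · rintro ⟨g, rfl⟩
      exact ⟨g.fn, g.norm_le, rfl, fun _ => rfl⟩
  rw [h2]
  exact isCompact_range h1

theorem smul_mem_Kset {x : E} {y : Fin n → E} {c : 𝕜} (hc : ‖c‖ ≤ 1) {a : 𝕜 × (Fin n → 𝕜)}
    (ha : a ∈ Kset 𝕜 x y) : c • a ∈ Kset 𝕜 x y := by
  obtain ⟨g, hg, hgx, hgy⟩ := ha
  refine ⟨c • g, ?_, ?_, ?_⟩
  · rw [norm_smul]
    exact mul_le_one₀ hc (norm_nonneg _) hg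
  · simp [hgx]
  · intro i
    simp [hgy i]

theorem convex_Kset (x : E) (y : Fin n → E) : Convex ℝ (Kset 𝕜 x y) := by
  rintro a ⟨g, hg, hgx, hgy⟩ b ⟨g', hg', hgx', hgy'⟩ s t hs ht hst
  refine ⟨(s : 𝕜) • g + (t : 𝕜) • g', ?_, ?_, ?_⟩
  · calc ‖(s : 𝕜) • g + (t : 𝕜) • g'‖ ≤ ‖(s : 𝕜) • g‖ + ‖(t : 𝕜) • g'‖ := norm_add_le _ _
      _ = s * ‖g‖ + t * ‖g'‖ := by
        rw [norm_smul, norm_smul, RCLike.norm_ofReal, RCLike.norm_ofReal, abs_of_nonneg hs,
          abs_of_nonneg ht]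
      _ ≤ s * 1 + t * 1 := by gcongr
      _ = 1 := by linarith
  · simp [hgx, hgx', RCLike.real_smul_eq_coe_mul]
  · intro i
    simp [hgy i, hgy' i, RCLike.real_smul_eq_coe_mul]

theorem zero_mem_interior_Kset {x : E} {y : Fin n → E}
    (hli : LinearIndependent 𝕜 (Fin.cons x y : Fin (n + 1) → E)) :
    (0 : 𝕜 × (Fin n → 𝕜)) ∈ interior (Kset 𝕜 x y) := by
  let Φ : StrongDual 𝕜 E →L[𝕜] 𝕜 × (Fin n → 𝕜) :=
    (ContinuousLinearMap.apply 𝕜 𝕜 x).prod (ContinuousLinearMap.pi fun i =>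
      ContinuousLinearMap.apply 𝕜 𝕜 (y i))
  have hsurj : Function.Surjective Φ := by
    intro a
    have hinj : Function.Injective (Fintype.linearCombination 𝕜 (Fin.cons x y : Fin (n + 1) → E)) :=
      linearIndependent_iff_injective_fintypeLinearCombination.mp hli
    obtain ⟨g, hg⟩ := (SeparatingDual.dualMap_surjective_iff.mpr hinj)
      (Fintype.linearCombination 𝕜 (Fin.cons a.1 a.2 : Fin (n + 1) → 𝕜))
    have hval : ∀ j, g ((Fin.cons x y : Fin (n + 1) → E) j) = (Fin.cons a.1 a.2 : Fin (n + 1) → 𝕜) j := by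
      intro j
      have h1 := LinearMap.congr_fun hg (Pi.single j 1)
      simpa using h1
    refine ⟨g, Prod.ext ?_ (funext fun i => ?_)⟩
    · have h2 := hval 0
      show g x = a.1
      simpa using h2
    · have h2 := hval i.succ
      show g (y i) = a.2 i
      simpa using h2
  have hopen := Φ.isOpenMap hsurj _ (Metric.isOpen_ball (x := (0 : StrongDual 𝕜 E)) (ε := 1))
  have hsub : Φ '' Metric.ball 0 1 ⊆ Kset 𝕜 x y := by
    rintro _ ⟨g, hg, rfl⟩
    refine ⟨g, ?_, rfl, fun _ => rfl⟩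
    exact (mem_ball_zero_iff.mp hg).le
  exact interior_maximal hsub hopen ⟨0, Metric.mem_ball_self one_pos, map_zero Φ⟩

end Main

section Main2

variable {𝕜 : Type*} [RCLike 𝕜] {E : Type*} [NormedAddCommGroup E] [NormedSpace 𝕜 E] {n : ℕ}

theorem smul_mem_Seg {x : E} {y : Fin n → E} {c : 𝕜} (hc : ‖c‖ ≤ 1) {d : 𝕜 × (Fin n → 𝕜)}
    (hd : d ∈ Seg (Kset 𝕜 x y)) : c • d ∈ Seg (Kset 𝕜 x y) := by
  obtain ⟨p, hp, h1, h2⟩ := hd
  have hcl : IsClosed (Kset 𝕜 x y) := (isCompact_Kset x y).isClosed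
  have hpK : p ∈ Kset 𝕜 x y := hcl.frontier_subset hp
  rcases eq_or_ne c 0 with h0 | h0
  · refine ⟨p, hp, ?_, ?_⟩
    · rw [h0, zero_smul, add_zero]; exact hpK
    · rw [h0, zero_smul, sub_zero]; exact hpK
  · have hcn : (‖c‖ : 𝕜) ≠ 0 := by
      have : ‖c‖ ≠ 0 := norm_ne_zero_iff.mpr h0
      exact_mod_cast this
    set u : 𝕜 := c * (‖c‖ : 𝕜)⁻¹ with hu
    have hun : ‖u‖ = 1 := by
      rw [hu, norm_mul, norm_inv, RCLike.norm_ofReal, abs_norm, mul_inv_cancel₀]
      exact norm_ne_zero_iff.mpr h0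
    have hu0 : u ≠ 0 := by
      intro h
      rw [h, norm_zero] at hun
      exact zero_ne_one hun
    have huc : u * (‖c‖ : 𝕜) = c := by
      rw [hu, mul_assoc, inv_mul_cancel₀ hcn, mul_one]
    have hfr : u • p ∈ frontier (Kset 𝕜 x y) := by
      rw [hcl.frontier_eq] at hp ⊢
      refine ⟨smul_mem_Kset hun.le hp.1, ?_⟩
      intro hint
      apply hp.2
      have hopen : IsOpen {q : 𝕜 × (Fin n → 𝕜) | u • q ∈ interior (Kset 𝕜 x y)} :=
        isOpen_interior.preimage (continuous_const_smul u)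
      have hsub : {q : 𝕜 × (Fin n → 𝕜) | u • q ∈ interior (Kset 𝕜 x y)} ⊆ Kset 𝕜 x y := by
        intro q hq
        have h3 : u • q ∈ Kset 𝕜 x y := interior_subset hq
        have h4 := smul_mem_Kset (c := u⁻¹) (by rw [norm_inv, hun, inv_one]) h3
        rwa [inv_smul_smul₀ hu0] at h4
      exact interior_maximal hsub hopen hint
    have hconv := convex_Kset (𝕜 := 𝕜) x y
    have hcd : c • d = u • (‖c‖ • d) := by
      rw [← huc, mul_smul]
      congr 1
      rw [RCLike.real_smul_eq_coe_smul (K := 𝕜), huc]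
    refine ⟨u • p, hfr, ?_, ?_⟩
    · have h3 : p + ‖c‖ • d ∈ Kset 𝕜 x y := by
        have : p + ‖c‖ • d = (1 - ‖c‖) • p + ‖c‖ • (p + d) := by module
        rw [this]
        exact hconv hpK h1 (by linarith) (norm_nonneg _) (by ring)
      rw [hcd, ← smul_add]
      exact smul_mem_Kset hun.le h3
    · have h3 : p - ‖c‖ • d ∈ Kset 𝕜 x y := by
        have : p - ‖c‖ • d = (1 - ‖c‖) • p + ‖c‖ • (p - d) := by module
        rw [this]
        exact hconv hpK h2 (by linarith) (norm_nonneg _) (by ring)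
      rw [hcd, ← smul_sub]
      exact smul_mem_Kset hun.le h3

/-- No open set that contains a linearly independent tuple consists of bad tuples. -/
theorem not_subset_Bad {x : E} {δ R : ℝ} (hδ : 0 < δ) {U : Set (Fin n → E)} (hU : IsOpen U)
    {y : Fin n → E} (hy : y ∈ U) (hli : LinearIndependent 𝕜 y) : ¬ U ⊆ Bad 𝕜 x δ R := by
  intro hsub
  -- `x` is not in the span of `y`
  have hx : x ∉ Submodule.span 𝕜 (range y) := by
    intro hmem
    obtain ⟨g₁, g₂, -, -, h3, h4, -⟩ := hsub hy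
    have h5 : g₁ x = g₂ x := by
      have h6 : Set.EqOn (g₁ : E →ₗ[𝕜] 𝕜) (g₂ : E →ₗ[𝕜] 𝕜) (range y) := by
        rintro _ ⟨i, rfl⟩
        exact h3 i
      exact LinearMap.eqOn_span h6 hmem
    rw [h5, sub_self, norm_zero] at h4
    linarith
  have hli' : LinearIndependent 𝕜 (Fin.cons x y : Fin (n + 1) → E) :=
    linearIndependent_finCons.mpr ⟨hli, hx⟩
  have h0 := zero_mem_interior_Kset hli'
  let _ : MeasurableSpace 𝕜 := borel 𝕜
  have : BorelSpace 𝕜 := ⟨rfl⟩
  have hnull := measure_Seg ((Measure.addHaar : Measure 𝕜).prod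
    (Measure.addHaar : Measure (Fin n → 𝕜))) (isCompact_Kset x y) (convex_Kset x y) h0
  have hWopen : IsOpen {s : Fin n → 𝕜 | (fun i => y i + s i • x) ∈ U} :=
    hU.preimage (by fun_prop)
  have hWne : {s : Fin n → 𝕜 | (fun i => y i + s i • x) ∈ U}.Nonempty :=
    ⟨0, by simpa using hy⟩
  obtain ⟨s, hs, hsgood⟩ := exists_direction Measure.addHaar Measure.addHaar hnull
    (fun c hc d hd => smul_mem_Seg hc hd) hWopen hWne
  obtain ⟨g₁, g₂, h1, h2, h3, h4, c, -, h6, h7⟩ := hsub hs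
  set z : 𝕜 := (1 / 2 : 𝕜) * (g₁ x - g₂ x) with hz
  have hz0 : z ≠ 0 := by
    intro h
    have : g₁ x - g₂ x = 0 := by
      rcases mul_eq_zero.mp h with h' | h'
      · norm_num at h'
      · exact h'
    rw [this, norm_zero] at h4
    linarith
  apply hsgood z hz0
  have hdiff : ∀ i, g₁ (y i) - g₂ (y i) = -(s i * (g₁ x - g₂ x)) := by
    intro i
    have h8 := h3 i
    simp only [map_add, map_smul, smul_eq_mul] at h8
    linear_combination h8
  set p : 𝕜 × (Fin n → 𝕜) := ((1 / 2 : 𝕜) * (g₁ x + g₂ x), fun i => (1 / 2 : 𝕜) * (g₁ (y i) + g₂ (y i)))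
    with hp
  have hp1 : p + (z, -(z • s)) ∈ Kset 𝕜 x y := by
    refine ⟨g₁, h1, ?_, fun i => ?_⟩
    · simp only [hp, hz, Prod.fst_add]; ring
    · simp only [hp, hz, Prod.snd_add, Pi.add_apply, Pi.neg_apply, Pi.smul_apply, smul_eq_mul]
      linear_combination (1 / 2 : 𝕜) * hdiff i
  have hp2 : p - (z, -(z • s)) ∈ Kset 𝕜 x y := by
    refine ⟨g₂, h2, ?_, fun i => ?_⟩
    · simp only [hp, hz, Prod.fst_sub]; ring
    · simp only [hp, hz, Prod.snd_sub, Pi.sub_apply, Pi.neg_apply, Pi.smul_apply, smul_eq_mul]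
      linear_combination -(1 / 2 : 𝕜) * hdiff i
  have hcl : IsClosed (Kset 𝕜 x y) := (isCompact_Kset x y).isClosed
  have hpK : p ∈ Kset 𝕜 x y := by
    have h8 := convex_Kset (𝕜 := 𝕜) x y hp1 hp2 (show (0 : ℝ) ≤ 1 / 2 by norm_num)
      (show (0 : ℝ) ≤ 1 / 2 by norm_num) (by norm_num)
    have h9 : (1 / 2 : ℝ) • (p + (z, -(z • s))) + (1 / 2 : ℝ) • (p - (z, -(z • s))) = p := by module
    rwa [h9] at h8
  refine ⟨p, ?_, hp1, hp2⟩
  rw [hcl.frontier_eq]
  refine ⟨hpK, fun hint => ?_⟩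
  -- the supporting functional
  set v : E := ∑ i, c i • (y i + s i • x) with hv
  have hval : ∀ a ∈ Kset 𝕜 x y, ‖∑ i, c i * (a.2 i + s i * a.1)‖ ≤ 1 := by
    rintro a ⟨g, hg, hgx, hgy⟩
    have h8 : ∑ i, c i * (a.2 i + s i * a.1) = g v := by
      rw [hv, map_sum]
      apply Finset.sum_congr rfl
      intro i _
      rw [map_smul, map_add, map_smul, hgx, hgy i, smul_eq_mul, smul_eq_mul]
    rw [h8]
    calc ‖g v‖ ≤ ‖g‖ * ‖v‖ := g.le_opNorm v
      _ ≤ 1 * 1 := by
        rw [h6]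
        exact mul_le_mul_of_nonneg_right hg zero_le_one
      _ = 1 := one_mul 1
  have hgv2 : g₂ v = 1 := by
    rw [← h7, hv, map_sum, map_sum]
    apply Finset.sum_congr rfl
    intro i _
    rw [map_smul, map_smul]
    congr 1
    exact (h3 i).symm
  have hpv : ∑ i, c i * (p.2 i + s i * p.1) = 1 := by
    have e1 : g₁ v = ∑ i, c i * (g₁ (y i) + s i * g₁ x) := by
      rw [hv, map_sum]
      apply Finset.sum_congr rfl
      intro i _
      rw [map_smul, map_add, map_smul, smul_eq_mul, smul_eq_mul]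
    have e2 : g₂ v = ∑ i, c i * (g₂ (y i) + s i * g₂ x) := by
      rw [hv, map_sum]
      apply Finset.sum_congr rfl
      intro i _
      rw [map_smul, map_add, map_smul, smul_eq_mul, smul_eq_mul]
    have e3 : ∑ i, c i * (p.2 i + s i * p.1) = (1 / 2 : 𝕜) * (g₁ v + g₂ v) := by
      rw [e1, e2, ← Finset.sum_add_distrib, Finset.mul_sum]
      apply Finset.sum_congr rfl
      intro i _
      simp only [hp]
      ring
    rw [e3, hgv2]
    have : g₁ v = 1 := h7
    rw [this]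
    norm_num
  have hcont : Tendsto (fun t : ℝ => (1 + t) • p) (𝓝 0) (𝓝 p) := by
    have : Continuous fun t : ℝ => (1 + t) • p := by fun_prop
    have h8 := this.tendsto 0
    simpa using h8
  have hev := hcont.eventually (isOpen_interior.mem_nhds hint)
  obtain ⟨ε, hε, hball⟩ := Metric.eventually_nhds_iff.mp hev
  have h8 := hball (y := ε / 2) (by rw [Real.dist_eq, sub_zero, abs_of_pos (by linarith)]; linarith)
  have h9 := hval _ (interior_subset h8)
  have h10 : ∑ i, c i * (((1 + ε / 2) • p).2 i + s i * ((1 + ε / 2) • p).1) =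
      ((1 + ε / 2 : ℝ) : 𝕜) * ∑ i, c i * (p.2 i + s i * p.1) := by
    rw [Finset.mul_sum]
    apply Finset.sum_congr rfl
    intro i _
    simp only [Prod.smul_fst, Prod.smul_snd, Pi.smul_apply, RCLike.real_smul_eq_coe_mul]
    ring
  rw [h10, hpv, mul_one, RCLike.norm_ofReal, abs_of_pos (by linarith)] at h9
  linarith

/-- A generic tuple. -/
theorem exists_generic [CompleteSpace E] [SeparableSpace E]
    (hn : (n : Cardinal) ≤ Module.rank 𝕜 E) :
    ∃ y : Fin n → E, LinearIndependent 𝕜 y ∧ ∀ k m r : ℕ,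
      y ∉ Bad 𝕜 (denseSeq E k) (1 / ((m : ℝ) + 1)) r := by
  set LI : Set (Fin n → E) := {y | LinearIndependent 𝕜 y} with hLI
  have hLIo : IsOpen LI := isOpen_setOfPred_linearIndependent
  have hLIn : LI.Nonempty := Module.le_rank_iff.mp hn
  let O : ℕ × ℕ × ℕ → Set (Fin n → E) := fun j =>
    (Bad 𝕜 (denseSeq E j.1) (1 / ((j.2.1 : ℝ) + 1)) (j.2.2 : ℕ))ᶜ ∪ (closure LI)ᶜ
  have hO : ∀ j, IsOpen (O j) := fun j =>
    (isClosed_Bad _ _ _).isOpen_compl.union isClosed_closure.isOpen_compl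
  have hOd : ∀ j, Dense (O j) := by
    intro j
    rw [dense_iff_inter_open]
    intro W hW hWn
    by_cases hWL : (W ∩ LI).Nonempty
    · obtain ⟨y, hyW, hyL⟩ := hWL
      have h1 := not_subset_Bad (𝕜 := 𝕜) (x := denseSeq E j.1) (R := (j.2.2 : ℕ))
        (show (0 : ℝ) < 1 / ((j.2.1 : ℝ) + 1) by positivity) hW hyW hyL
      rw [Set.not_subset] at h1
      obtain ⟨w, hwW, hwB⟩ := h1
      exact ⟨w, hwW, Or.inl hwB⟩
    · obtain ⟨w, hw⟩ := hWn
      refine ⟨w, hw, Or.inr ?_⟩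
      intro hwc
      rw [mem_closure_iff] at hwc
      exact hWL (hwc W hW hw)
  have hd := dense_iInter_of_isOpen hO hOd
  obtain ⟨y, hyL, hyO⟩ := hd.inter_open_nonempty LI hLIo hLIn
  refine ⟨y, hyL, fun k m r hB => ?_⟩
  have h1 := mem_iInter.mp hyO (k, m, r)
  rcases h1 with h2 | h2
  · exact h2 hB
  · exact h2 (subset_closure hyL)

end Main2

section Chebyshev

variable {𝕜 : Type*} [RCLike 𝕜] {E : Type*} [NormedAddCommGroup E] [NormedSpace 𝕜 E] {n : ℕ}

/-- `G` is a Chebyshev set: every point has exactly one best approximation in `G`. -/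
def IsChebyshev {X : Type*} [NormedAddCommGroup X] (G : Set X) : Prop :=
  ∀ x : X, ∃! g : X, g ∈ G ∧ ∀ g' ∈ G, ‖x - g‖ ≤ ‖x - g'‖

/-- A subspace of the dual of `E` is weak star closed. -/
def IsWeakStarClosed {𝕜 : Type*} [RCLike 𝕜] {E : Type*} [NormedAddCommGroup E] [NormedSpace 𝕜 E]
    (Γ : Submodule 𝕜 (StrongDual 𝕜 E)) : Prop :=
  IsClosed {f : WeakDual 𝕜 E | WeakDual.toStrongDual f ∈ Γ}

/-- The annihilator of a tuple. -/
def Ann (𝕜 : Type*) [RCLike 𝕜] {E : Type*} [NormedAddCommGroup E] [NormedSpace 𝕜 E]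
    (y : Fin n → E) : Submodule 𝕜 (StrongDual 𝕜 E) where
  carrier := {f | ∀ i, f (y i) = 0}
  add_mem' := by
    intro f g hf hg i
    rw [add_apply, hf i, hg i, add_zero]
  zero_mem' := fun _ => rfl
  smul_mem' := by
    intro c f hf i
    rw [smul_apply, hf i, smul_zero]

theorem mem_Ann {y : Fin n → E} {f : StrongDual 𝕜 E} : f ∈ Ann 𝕜 y ↔ ∀ i, f (y i) = 0 := Iff.rfl

theorem isWeakStarClosed_Ann (y : Fin n → E) : IsWeakStarClosed (Ann 𝕜 y) := by
  have : {f : WeakDual 𝕜 E | WeakDual.toStrongDual f ∈ Ann 𝕜 y} =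
      ⋂ i, {f : WeakDual 𝕜 E | f (y i) = 0} := by
    ext f
    rw [mem_iInter]
    exact Iff.rfl
  unfold IsWeakStarClosed
  rw [this]
  exact isClosed_iInter fun i => isClosed_eq (WeakDual.eval_continuous (y i)) continuous_const

theorem rank_Ann {y : Fin n → E} (hli : LinearIndependent 𝕜 y) :
    Module.rank 𝕜 (StrongDual 𝕜 E ⧸ Ann 𝕜 y) = (n : Cardinal) := by
  let Ψ : StrongDual 𝕜 E →ₗ[𝕜] (Fin n → 𝕜) :=
    LinearMap.pi fun i => (ContinuousLinearMap.apply 𝕜 𝕜 (y i) : StrongDual 𝕜 E →L[𝕜] 𝕜)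
  have hker : LinearMap.ker Ψ = Ann 𝕜 y := by
    ext f
    rw [LinearMap.mem_ker, mem_Ann]
    exact funext_iff
  have hsurj : Function.Surjective Ψ := by
    intro a
    have hinj : Function.Injective (Fintype.linearCombination 𝕜 y) :=
      linearIndependent_iff_injective_fintypeLinearCombination.mp hli
    obtain ⟨g, hg⟩ := (SeparatingDual.dualMap_surjective_iff.mpr hinj)
      (Fintype.linearCombination 𝕜 a)
    refine ⟨g, funext fun i => ?_⟩
    have h1 := LinearMap.congr_fun hg (Pi.single i 1)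
    show g (y i) = a i
    simpa using h1
  rw [← hker]
  let e := LinearMap.quotKerEquivOfSurjective Ψ hsurj
  have hfin : Module.Finite 𝕜 (StrongDual 𝕜 E ⧸ LinearMap.ker Ψ) := Module.Finite.equiv e.symm
  rw [← Module.finrank_eq_rank, e.finrank_eq, Module.finrank_fin_fun]

/-- The annihilator of a generic tuple is a Chebyshev subspace. -/
theorem isChebyshev_Ann [SeparableSpace E] {y : Fin n → E}
    (hgen : ∀ k m r : ℕ, y ∉ Bad 𝕜 (denseSeq E k) (1 / ((m : ℝ) + 1)) r) :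
    IsChebyshev (Ann 𝕜 y : Set (StrongDual 𝕜 E)) := by
  intro f
  set F := Submodule.span 𝕜 (range y) with hF
  obtain ⟨h, hh, hnorm⟩ := exists_extension_norm_eq F (f.comp F.subtypeL)
  have hhy : ∀ i, h (y i) = f (y i) := fun i =>
    hh ⟨y i, Submodule.subset_span (mem_range_self i)⟩
  -- lower bound for the distance
  have hlow : ∀ γ ∈ Ann 𝕜 y, ‖h‖ ≤ ‖f - γ‖ := by
    intro γ hγ
    rw [hnorm]
    have h1 : f.comp F.subtypeL = (f - γ).comp F.subtypeL := by
      ext v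
      have h2 : γ (v : E) = 0 := by
        have h3 : Set.EqOn (γ : E →ₗ[𝕜] 𝕜) (0 : E →ₗ[𝕜] 𝕜) (range y) := by
          rintro _ ⟨i, rfl⟩
          exact hγ i
        exact LinearMap.eqOn_span h3 v.2
      show f v = f v - γ v
      rw [h2, sub_zero]
    rw [h1]
    calc ‖(f - γ).comp F.subtypeL‖ ≤ ‖f - γ‖ * ‖F.subtypeL‖ := ContinuousLinearMap.opNorm_comp_le _ _
      _ ≤ ‖f - γ‖ * 1 := mul_le_mul_of_nonneg_left (Submodule.norm_subtypeL_le F) (norm_nonneg _)
      _ = ‖f - γ‖ := mul_one _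
  have hmem : f - h ∈ Ann 𝕜 y := by
    intro i
    rw [sub_apply, hhy i, sub_self]
  refine ⟨f - h, ⟨hmem, fun γ hγ => ?_⟩, ?_⟩
  · rw [sub_sub_cancel]
    exact hlow γ hγ
  · rintro γ ⟨hγ, hbest⟩
    have hle : ‖f - γ‖ ≤ ‖h‖ := by
      have := hbest (f - h) hmem
      rwa [sub_sub_cancel] at this
    have heq : ‖f - γ‖ = ‖h‖ := le_antisymm hle (hlow γ hγ)
    -- it suffices to see that `f - γ = h`
    suffices hsuff : h = f - γ by rw [hsuff]; abel
    by_contra hne
    have hr : 0 < ‖h‖ := by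
      rcases (norm_nonneg h).lt_or_eq with h1 | h1
      · exact h1
      · exfalso
        apply hne
        rw [← h1] at heq
        rw [norm_eq_zero.mp heq, norm_eq_zero.mp h1.symm]
    -- a norming vector of the restriction
    have : FiniteDimensional 𝕜 F := FiniteDimensional.span_of_finite 𝕜 (finite_range y)
    have : ProperSpace F := FiniteDimensional.proper_rclike 𝕜 F
    set φ : StrongDual 𝕜 F := f.comp F.subtypeL with hφ
    have hφ0 : φ ≠ 0 := by
      intro h1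
      rw [h1, norm_zero] at hnorm
      exact hr.ne' hnorm
    obtain ⟨w, hw⟩ : ∃ w : F, φ w ≠ 0 := by
      by_contra hcon
      push Not at hcon
      exact hφ0 (ContinuousLinearMap.ext hcon)
    have hw0 : w ≠ 0 := by
      intro h1
      rw [h1, map_zero] at hw
      exact hw rfl
    have hsph : (Metric.sphere (0 : F) 1).Nonempty := by
      refine ⟨((‖w‖ : 𝕜)⁻¹) • w, ?_⟩
      rw [mem_sphere_zero_iff_norm, norm_smul, norm_inv, RCLike.norm_ofReal, abs_norm,
        inv_mul_cancel₀ (norm_ne_zero_iff.mpr hw0)]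
    obtain ⟨u, hu, humax⟩ := (isCompact_sphere (0 : F) 1).exists_isMaxOn hsph
      (φ.continuous.norm.continuousOn)
    have hu1 : ‖u‖ = 1 := mem_sphere_zero_iff_norm.mp hu
    have hφu : ‖φ‖ ≤ ‖φ u‖ := by
      apply ContinuousLinearMap.opNorm_le_bound _ (norm_nonneg _)
      intro v
      rcases eq_or_ne v 0 with h1 | h1
      · rw [h1, map_zero, norm_zero, norm_zero, mul_zero]
      · have hv0 : ‖v‖ ≠ 0 := norm_ne_zero_iff.mpr h1
        have h2 : ((‖v‖ : 𝕜)⁻¹) • v ∈ Metric.sphere (0 : F) 1 := by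
          rw [mem_sphere_zero_iff_norm, norm_smul, norm_inv, RCLike.norm_ofReal, abs_norm,
            inv_mul_cancel₀ hv0]
        have h3 : ‖φ (((‖v‖ : 𝕜)⁻¹) • v)‖ ≤ ‖φ u‖ := humax h2
        rw [map_smul, norm_smul, norm_inv, RCLike.norm_ofReal, abs_norm,
          inv_mul_le_iff₀ (lt_of_le_of_ne (norm_nonneg v) hv0.symm)] at h3
        linarith
    have hφu' : ‖φ u‖ = ‖h‖ := by
      apply le_antisymm
      · rw [hnorm]
        calc ‖φ u‖ ≤ ‖φ‖ * ‖u‖ := φ.le_opNorm u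
          _ = ‖φ‖ := by rw [hu1, mul_one]
      · rw [hnorm]; exact hφu
    have hφu0 : φ u ≠ 0 := by
      intro h1
      rw [h1, norm_zero] at hφu'
      exact hr.ne hφu'
    -- normalised data
    set r : 𝕜 := (‖h‖ : 𝕜) with hrdef
    have hr0 : r ≠ 0 := by
      have h1 : ‖h‖ ≠ 0 := hr.ne'
      rw [hrdef]
      exact_mod_cast h1
    have hrn : ‖r‖ = ‖h‖ := by rw [hrdef, RCLike.norm_ofReal, abs_norm]
    set v : F := (r * (φ u)⁻¹) • u with hv
    have hvn : ‖v‖ = 1 := by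
      rw [hv, norm_smul, norm_mul, norm_inv, hφu', hrn, hu1, mul_inv_cancel₀ hr.ne', one_mul]
    have hφv : φ v = r := by
      rw [hv, map_smul, smul_eq_mul, mul_assoc, inv_mul_cancel₀ hφu0, mul_one]
    obtain ⟨c, hc⟩ := (Submodule.mem_span_range_iff_exists_fun 𝕜).mp v.2
    -- separate the two functionals at a point of the dense sequence
    obtain ⟨x, hx⟩ : ∃ x, h x ≠ (f - γ) x := by
      by_contra hcon
      push Not at hcon
      exact hne (ContinuousLinearMap.ext hcon)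
    have hopen : IsOpen {x : E | r⁻¹ * h x ≠ r⁻¹ * (f - γ) x} := by
      apply isOpen_ne_fun
      · fun_prop
      · fun_prop
    have hnon : {x : E | r⁻¹ * h x ≠ r⁻¹ * (f - γ) x}.Nonempty := by
      refine ⟨x, fun h1 => hx ?_⟩
      exact mul_left_cancel₀ (inv_ne_zero hr0) h1
    obtain ⟨_, hxk, ⟨k, rfl⟩⟩ := (denseRange_denseSeq E).inter_open_nonempty _ hopen hnon
    have hpos : 0 < ‖r⁻¹ * h (denseSeq E k) - r⁻¹ * (f - γ) (denseSeq E k)‖ :=
      norm_pos_iff.mpr (sub_ne_zero.mpr hxk)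
    obtain ⟨m, hm⟩ := exists_nat_one_div_lt hpos
    obtain ⟨R, hR⟩ := exists_nat_ge ‖c‖
    apply hgen k m R
    refine ⟨r⁻¹ • h, r⁻¹ • (f - γ), ?_, ?_, ?_, ?_, c, hR, ?_, ?_⟩
    · rw [norm_smul, norm_inv, hrn, inv_mul_cancel₀ hr.ne']
    · rw [norm_smul, norm_inv, hrn, heq, inv_mul_cancel₀ hr.ne']
    · intro i
      rw [smul_apply, smul_apply, hhy i,
        sub_apply, hγ i, sub_zero]
    · rw [smul_apply, smul_apply, smul_eq_mul, smul_eq_mul]
      exact hm.le
    · rw [hc]; exact hvn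
    · rw [hc, smul_apply, hh v]
      have : φ v = r := hφv
      rw [this, smul_eq_mul, inv_mul_cancel₀ hr0]

/-- Every separable Banach space has weak star closed Chebyshev subspaces of every finite
codimension in its dual. -/
theorem exists_chebyshev [CompleteSpace E] [SeparableSpace E]
    (hn : (n : Cardinal) ≤ Module.rank 𝕜 E) :
    ∃ Γ : Submodule 𝕜 (StrongDual 𝕜 E), IsWeakStarClosed Γ ∧
      Module.rank 𝕜 (StrongDual 𝕜 E ⧸ Γ) = (n : Cardinal) ∧
      IsChebyshev (Γ : Set (StrongDual 𝕜 E)) := by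
  obtain ⟨y, hli, hgen⟩ := exists_generic hn
  exact ⟨Ann 𝕜 y, isWeakStarClosed_Ann y, rank_Ann hli, isChebyshev_Ann hgen⟩

end Chebyshev

section Incomplete

variable {E : Type*} [NormedAddCommGroup E] [NormedSpace ℝ E] {co : ℕ → StrongDual ℝ E} {ev : ℕ → E}

/-- Every nonzero functional can be changed in one coordinate without increasing its norm. -/
theorem exists_change (h1 : ∀ i, co i (ev i) = 1)
    (h3 : ∀ v i, ‖v - co i v • ev i‖ + |co i v| = ‖v‖) (h : StrongDual ℝ E) (hpos : 0 < ‖h‖)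
    (i : ℕ) : ∃ t : ℝ, t ≠ 0 ∧ ‖h + t • co i‖ ≤ ‖h‖ := by
  have hei : ‖ev i‖ = 1 := by
    have := h3 (ev i) i
    rw [h1 i, one_smul, sub_self, norm_zero, zero_add, abs_one] at this
    exact this.symm
  have ha : |h (ev i)| ≤ ‖h‖ := by
    have := h.le_opNorm (ev i)
    rwa [hei, mul_one, Real.norm_eq_abs] at this
  obtain ⟨t, ht0, ht⟩ : ∃ t : ℝ, t ≠ 0 ∧ |h (ev i) + t| ≤ ‖h‖ := by
    rcases eq_or_ne (h (ev i)) 0 with h0 | h0
    · refine ⟨‖h‖, hpos.ne', ?_⟩
      rw [h0, zero_add, abs_of_pos hpos]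
    · refine ⟨-(2 * h (ev i)), neg_ne_zero.mpr (mul_ne_zero two_ne_zero h0), ?_⟩
      have : h (ev i) + -(2 * h (ev i)) = -h (ev i) := by ring
      rw [this, abs_neg]
      exact ha
  refine ⟨t, ht0, ?_⟩
  apply ContinuousLinearMap.opNorm_le_bound _ (norm_nonneg _)
  intro v
  have h4 : (h + t • co i) v = h (v - co i v • ev i) + co i v * (h (ev i) + t) := by
    rw [add_apply, smul_apply, map_sub, map_smul, smul_eq_mul, smul_eq_mul]
    ring
  have h5 : ‖co i v * (h (ev i) + t)‖ ≤ ‖h‖ * |co i v| := by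
    rw [Real.norm_eq_abs, abs_mul, mul_comm]
    exact mul_le_mul_of_nonneg_right ht (abs_nonneg _)
  calc ‖(h + t • co i) v‖ = ‖h (v - co i v • ev i) + co i v * (h (ev i) + t)‖ := by rw [h4]
    _ ≤ ‖h (v - co i v • ev i)‖ + ‖co i v * (h (ev i) + t)‖ := norm_add_le _ _
    _ ≤ ‖h‖ * ‖v - co i v • ev i‖ + ‖h‖ * |co i v| := add_le_add (h.le_opNorm _) h5
    _ = ‖h‖ * (‖v - co i v • ev i‖ + |co i v|) := by ring
    _ = ‖h‖ * ‖v‖ := by rw [h3 v i]

/-- A weak star closed subspace of finite codimension contains a coordinate functional. -/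
theorem exists_coord_mem (h2 : ∀ v, ∀ᶠ i in atTop, co i v = 0) {n : ℕ}
    (Γ : Submodule ℝ (StrongDual ℝ E)) (hcl : IsWeakStarClosed Γ)
    (hrank : Module.rank ℝ (StrongDual ℝ E ⧸ Γ) = (n : Cardinal)) : ∃ i, co i ∈ Γ := by
  by_contra hcon
  push Not at hcon
  set Γ' : Submodule ℝ (WeakDual ℝ E) :=
    Γ.comap (WeakDual.toStrongDual : WeakDual ℝ E ≃ₗ[ℝ] StrongDual ℝ E).toLinearMap with hΓ'
  have hcl' : IsClosed (Γ' : Set (WeakDual ℝ E)) := hcl
  have hfinΓ : Module.Finite ℝ (StrongDual ℝ E ⧸ Γ) := by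
    apply Module.finite_of_rank_eq_nat hrank
  let e : (WeakDual ℝ E ⧸ Γ') ≃ₗ[ℝ] (StrongDual ℝ E ⧸ Γ) :=
    Submodule.Quotient.equiv Γ' Γ WeakDual.toStrongDual (by
      rw [hΓ']
      exact Submodule.map_comap_eq_of_surjective (LinearEquiv.surjective _) Γ)
  have hfin : FiniteDimensional ℝ (WeakDual ℝ E ⧸ Γ') := Module.Finite.equiv e.symm
  let b := Module.finBasis ℝ (WeakDual ℝ E ⧸ Γ')
  let L : (WeakDual ℝ E ⧸ Γ') →ₗ[ℝ] (Fin (Module.finrank ℝ (WeakDual ℝ E ⧸ Γ')) → ℝ) :=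
    b.equivFun.toLinearMap
  have hLc : Continuous L := LinearMap.continuous_of_finiteDimensional L
  have hLq : Continuous fun f : WeakDual ℝ E => L (Γ'.mkQ f) := hLc.comp Γ'.continuous_mkQ
  have hne : ∀ i, L (Γ'.mkQ (StrongDual.toWeakDual (co i))) ≠ 0 := by
    intro i h0
    have h1 : Γ'.mkQ (StrongDual.toWeakDual (co i)) = 0 := by
      apply b.equivFun.injective
      rw [map_zero]
      exact h0
    rw [Submodule.mkQ_apply, Submodule.Quotient.mk_eq_zero] at h1
    exact hcon i h1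
  -- a sequence which tends to zero
  let c : ℕ → ℝ := fun i => ‖L (Γ'.mkQ (StrongDual.toWeakDual (co i)))‖⁻¹
  have htend : Tendsto (fun i => c i • StrongDual.toWeakDual (co i)) atTop
      (𝓝 (0 : WeakDual ℝ E)) := by
    rw [tendsto_iff_forall_eval_tendsto_topDualPairing]
    intro v
    apply tendsto_const_nhds.congr'
    filter_upwards [h2 v] with i hi
    show (0 : ℝ) = c i • co i v
    rw [hi, smul_zero]
  have h1 := (hLq.tendsto 0).comp htend
  have h2 : ∀ i, ‖L (Γ'.mkQ (c i • StrongDual.toWeakDual (co i)))‖ = 1 := by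
    intro i
    rw [map_smul, map_smul, norm_smul, norm_inv, norm_norm, inv_mul_cancel₀]
    exact norm_ne_zero_iff.mpr (hne i)
  have h3 := h1.norm
  simp only [map_zero, norm_zero] at h3
  have h4 : Tendsto (fun _ : ℕ => (1 : ℝ)) atTop (𝓝 0) := by
    refine h3.congr fun i => ?_
    exact h2 i
  have h5 := tendsto_nhds_unique h4 tendsto_const_nhds
  exact zero_ne_one h5

theorem not_chebyshev (h1 : ∀ i, co i (ev i) = 1) (h2 : ∀ v, ∀ᶠ i in atTop, co i v = 0)
    (h3 : ∀ v i, ‖v - co i v • ev i‖ + |co i v| = ‖v‖) {n : ℕ} (hn : 1 ≤ n)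
    (Γ : Submodule ℝ (StrongDual ℝ E)) (hcl : IsWeakStarClosed Γ)
    (hrank : Module.rank ℝ (StrongDual ℝ E ⧸ Γ) = (n : Cardinal)) :
    ¬ IsChebyshev (Γ : Set (StrongDual ℝ E)) := by
  intro hch
  obtain ⟨i, hi⟩ := exists_coord_mem h2 Γ hcl hrank
  have hne : ∃ f, f ∉ Γ := by
    by_contra hcon
    push Not at hcon
    have htop : Γ = ⊤ := (Submodule.eq_top_iff').mpr hcon
    rw [htop] at hrank
    have h1 : Module.rank ℝ (StrongDual ℝ E ⧸ (⊤ : Submodule ℝ (StrongDual ℝ E))) = 0 :=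
      rank_subsingleton' _ _
    rw [h1] at hrank
    have h2 : n = 0 := by exact_mod_cast hrank.symm
    omega
  obtain ⟨f, hf⟩ := hne
  obtain ⟨γ, ⟨hγ, hbest⟩, huniq⟩ := hch f
  have hpos : 0 < ‖f - γ‖ := by
    rw [norm_pos_iff, sub_ne_zero]
    intro h
    exact hf (h ▸ hγ)
  obtain ⟨t, ht0, ht⟩ := exists_change h1 h3 (f - γ) hpos i
  have h4 : γ - t • co i ∈ Γ := Γ.sub_mem hγ (Γ.smul_mem t hi)
  have h5 : f - (γ - t • co i) = f - γ + t • co i := by abel
  have h6 : γ - t • co i = γ := by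
    apply huniq
    refine ⟨h4, fun g' hg' => ?_⟩
    rw [h5]
    exact ht.trans (hbest g' hg')
  have h7 : t • co i = 0 := sub_eq_self.mp h6
  have h8 : (t • co i) (ev i) = 0 := by rw [h7]; rfl
  rw [smul_apply, h1 i, smul_eq_mul, mul_one] at h8
  exact ht0 h8

/-- The space `ℓ¹`. -/
abbrev L1 := lp (fun _ : ℕ => ℝ) 1

/-- The unit vectors of `ℓ¹`. -/
noncomputable def ei (i : ℕ) : L1 := lp.single 1 i (1 : ℝ)

theorem ei_self (i : ℕ) : (ei i : ℕ → ℝ) i = 1 :=
  lp.single_apply_self (E := fun _ : ℕ => ℝ) 1 i (1 : ℝ)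

theorem ei_ne {i j : ℕ} (h : i ≠ j) : (ei j : ℕ → ℝ) i = 0 :=
  lp.single_apply_ne (E := fun _ : ℕ => ℝ) 1 j (1 : ℝ) h

/-- The finitely supported sequences with the norm of `ℓ¹`. -/
noncomputable def C00 : Submodule ℝ L1 := Submodule.span ℝ (range ei)

/-- The unit vectors as elements of `C00`. -/
noncomputable def eC (i : ℕ) : C00 := ⟨ei i, Submodule.subset_span (mem_range_self i)⟩

/-- The coordinate functionals on `C00`. -/
noncomputable def coord (i : ℕ) : StrongDual ℝ C00 :=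
  (lp.evalCLM ℝ (fun _ : ℕ => ℝ) 1 i).comp C00.subtypeL

theorem coord_apply (i : ℕ) (v : C00) : coord i v = ((v : L1) : ℕ → ℝ) i := rfl

theorem coord_eC (i : ℕ) : coord i (eC i) = 1 := by
  rw [coord_apply]
  exact ei_self i

theorem eventually_coord (v : C00) : ∀ᶠ i in atTop, coord i v = 0 := by
  obtain ⟨v, hv⟩ := v
  induction hv using Submodule.span_induction with
  | mem x hx =>
    obtain ⟨j, rfl⟩ := hx
    filter_upwards [eventually_gt_atTop j] with i hi
    exact ei_ne hi.ne'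
  | zero => exact Eventually.of_forall fun i => rfl
  | add x y hx hy h1 h2 =>
    filter_upwards [h1, h2] with i hi1 hi2
    rw [coord_apply] at hi1 hi2 ⊢
    show (x : ℕ → ℝ) i + (y : ℕ → ℝ) i = 0
    rw [show (x : ℕ → ℝ) i = 0 from hi1, show (y : ℕ → ℝ) i = 0 from hi2, add_zero]
  | smul a x hx h1 =>
    filter_upwards [h1] with i hi1
    rw [coord_apply] at hi1 ⊢
    show a * (x : ℕ → ℝ) i = 0
    rw [show (x : ℕ → ℝ) i = 0 from hi1, mul_zero]

theorem norm_split (v : C00) (i : ℕ) : ‖v - coord i v • eC i‖ + |coord i v| = ‖v‖ := by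
  have h1 := lp.norm_sub_norm_compl_sub_single (E := fun _ : ℕ => ℝ) (p := 1)
    (by norm_num) (v : L1) {i}
  simp only [ENNReal.toReal_one, Real.rpow_one, Finset.sum_singleton] at h1
  have h2 : (lp.single 1 i (((v : L1) : ℕ → ℝ) i) : L1) = coord i v • ei i := by
    rw [coord_apply, ei, ← lp.single_smul, smul_eq_mul, mul_one]
  rw [h2] at h1
  have h3 : ‖v - coord i v • eC i‖ = ‖(v : L1) - coord i v • ei i‖ := rfl
  have h4 : ‖v‖ = ‖(v : L1)‖ := rfl
  rw [h3, h4, ← Real.norm_eq_abs]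
  have h5 : ‖coord i v‖ = ‖((v : L1) : ℕ → ℝ) i‖ := rfl
  rw [h5]
  linarith

theorem separable_C00 : SeparableSpace C00 := by
  have h1 : IsSeparable (range ei) := (countable_range ei).isSeparable
  have h2 : IsSeparable (C00 : Set L1) := h1.span
  exact h2.separableSpace

theorem infinite_C00 : ¬ FiniteDimensional ℝ C00 := by
  intro hfin
  have hli : LinearIndependent ℝ eC := by
    rw [linearIndependent_iff']
    intro s g hg i hi
    have h1 : coord i (∑ j ∈ s, g j • eC j) = g i := by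
      rw [map_sum, Finset.sum_eq_single i]
      · rw [map_smul, coord_eC, smul_eq_mul, mul_one]
      · intro j _ hj
        rw [map_smul, coord_apply]
        have : ((eC j : L1) : ℕ → ℝ) i = 0 := ei_ne hj.symm
        rw [this, smul_zero]
      · intro h; exact absurd hi h
    rw [hg, map_zero] at h1
    exact h1.symm
  have := hli.finite
  exact not_finite ℕ

end Incomplete

universe u

/-- The dual of `E` has a weak star closed Chebyshev subspace of codimension `n`. -/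
def HasWeakStarChebyshev (𝕜 : Type) [RCLike 𝕜] (E : Type u) [NormedAddCommGroup E]
    [NormedSpace 𝕜 E] (n : ℕ) : Prop :=
  ∃ Γ : Submodule 𝕜 (StrongDual 𝕜 E), IsWeakStarClosed Γ ∧
    Module.rank 𝕜 (StrongDual 𝕜 E ⧸ Γ) = (n : Cardinal) ∧
    IsChebyshev (Γ : Set (StrongDual 𝕜 E))

/-- Part one: for every separable Banach space `E` over the real or complex numbers and every `n`
not exceeding the dimension of `E`, the dual of `E` has a weak star closed Chebyshev subspace of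
codimension `n`. Part two: completeness cannot be omitted. There is a separable infinite
dimensional real normed space whose dual has no weak star closed Chebyshev subspace of any finite
codimension `n ≥ 1`. -/
theorem result :
    (∀ (𝕜 : Type) [RCLike 𝕜] (E : Type u) [NormedAddCommGroup E] [NormedSpace 𝕜 E]
      [CompleteSpace E] [SeparableSpace E] (n : ℕ), (n : Cardinal) ≤ Module.rank 𝕜 E →
      HasWeakStarChebyshev 𝕜 E n) ∧
    (∃ (E : Type) (_ : NormedAddCommGroup E) (_ : NormedSpace ℝ E), SeparableSpace E ∧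
      ¬ FiniteDimensional ℝ E ∧ ∀ n : ℕ, 1 ≤ n → ¬ HasWeakStarChebyshev ℝ E n) :=
  ⟨fun _ _ _ _ _ _ _ _ hn => exists_chebyshev hn,
    C00, inferInstance, inferInstance, separable_C00, infinite_C00,
    fun _ hn ⟨Γ, hcl, hrank, hch⟩ =>
      not_chebyshev coord_eC eventually_coord norm_split hn Γ hcl hrank hch⟩

end Pool.Agent.Results.MP_beddab_an.WeakStarChebyshev
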